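import Pool.Agent.helper67.TPD.Spec

set_option autoImplicit false

open Finset

noncomputable section

namespace Pool.Agent.TPD

open Pool.Agent.EP Pool.Agent.PQ

theorem KYD_c6 (x r : ℕ) (hx : x % 24 = r) (hr : r = 7 ∨ r = 1) : x.Coprime 6 := by
  have h1 : x % 6 = 1 := by omega
  rw [Nat.Coprime, Nat.gcd_comm, Nat.gcd_rec, h1]
  norm_num

theorem KYD (hKY4 : KY4_stmt) (hRB4 : RB4_stmt) (hNR : NR_stmt) : KYD_stmt := by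
  intro i a t κ b s s₁ s₂ m c₁ c₂ d₁ d₂ ρ φ ht hρ hφ D P₁ P₂ R₁ R₂ hP₁ hP₂ hR₁ hR₂ hp₁ hp₂ hr₁ hr₂
    hRs hPs₁ hRs₂ e1 e2 e3 e4
  obtain ⟨k1, k2, k3, k4, k5⟩ := D.kk P₁ P₂ hp₁ hp₂
  obtain ⟨m1, m2, m3, m4, m5⟩ := D.MM R₁ R₂ hr₁ hr₂
  have hb := D.b1
  have hκ := D.κ2
  have hb1 : b % 2 = 1 := by omega
  have hb3 : 3 ≤ b := by omega
  have key : ∀ (T : Finset ℕ), (∀ q ∈ T, q.Prime ∧ q % 24 = 7) → ∀ N : ℕ, (∀ q ∈ T, q ∣ N + 1) →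
      ∀ u : ℕ, 2 ^ b * u ^ 2 < N → Nat.Coprime (∏ q ∈ T, q) (N - 2 ^ b * u ^ 2) := by
    intro T hT N hN u hu
    refine Nat.Coprime.prod_left fun q hq => ?_
    obtain ⟨hq1, hq2⟩ := hT q hq
    exact (Nat.Prime.coprime_iff_not_dvd hq1).2 (hNR q b N u hq1 (by omega) hb1 (hN q hq) hu)
  refine hKY4 b t 1 (∏ q ∈ s₁, q) (∏ q ∈ s, q) (∏ q ∈ s₂, q) P₁ P₂ R₁ R₂ ρ φ hb1 hb3 ht hρ hφ
    hP₁ hP₂ hR₁ hR₂ (by rw [one_mul]; exact k1) k2 m2 m3 ?_ ?_ e1 e2 e3 e4 ?_ ?_ ?_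
  · rw [one_mul]
    exact Nat.ModEq.of_mul_right (2 ^ b) (show P₁ ≡ (∏ q ∈ s₁, q) * P₂ [MOD 24 * t * 2 ^ b] from k3)
  · exact Nat.ModEq.of_mul_right (2 ^ b)
      (show (∏ q ∈ s, q) * R₁ ≡ (∏ q ∈ s₂, q) * R₂ [MOD 24 * t * 2 ^ b] from m4)
  · intro A hA N hN u hu
    rw [Finset.mem_insert, Finset.mem_singleton] at hA hN
    rcases hA with rfl | rfl
    · exact Nat.coprime_one_left _
    · refine key s₁ D.hs₁ N (fun q hq => ?_) u hu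
      rcases hN with rfl | rfl
      · exact (m5 q hq).1
      · exact (m5 q hq).2
  · intro C hC N hN u hu
    rw [Finset.mem_insert, Finset.mem_singleton] at hC hN
    apply Nat.Coprime.symm
    rcases hC with rfl | rfl
    · refine key s D.hs N (fun q hq => ?_) u hu
      rcases hN with rfl | rfl
      · rw [one_mul]
        exact (k4 q hq).1
      · exact (k4 q hq).2
    · refine key s₂ D.hs₂ N (fun q hq => ?_) u hu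
      rcases hN with rfl | rfl
      · rw [one_mul]
        exact (k5 q hq).1
      · exact (k5 q hq).2
  · rw [one_mul]
    exact hRB4 κ b s s₁ s₂ P₁ P₂ R₁ R₂ hκ hb D.hs D.hs₁ D.hs₂ D.cs D.cs₁ D.cs₂ hP₁ hP₂ hR₁ hR₂ k1 m1
      (KYD_c6 _ 7 k2 (Or.inl rfl)).coprime_mul_left (KYD_c6 _ 1 m3 (Or.inr rfl)).coprime_mul_left
      hRs hPs₁ hRs₂

end Pool.Agent.TPD
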